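import Pool.Agent.K1H62.MC.Plan

set_option autoImplicit false

/-! The scalar curvature is integrable. -/

namespace Pool.Agent.K1H68.MC

open MeasureTheory Filter Topology
open scoped ENNReal ContDiff
open Pool.Agent.K1H62.MC

noncomputable section

lemma term_cont {U : Set E} {a p q r s t w : E → ℝ} (ha : ContinuousOn a U) (hp : ContinuousOn p U)
    (hq : ContinuousOn q U) (hr : ContinuousOn r U) (hs : ContinuousOn s U) (ht : ContinuousOn t U)
    (hw : ContinuousOn w U) :
    ContinuousOn (fun x => Real.exp (-2 * a x) * (p x + q x + r x ^ 2 + s x ^ 2 + r x * s x -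
      t x * (r x + w x))) U := by
  have h1 : ContinuousOn (fun x => Real.exp (-2 * a x)) U :=
    Real.continuous_exp.comp_continuousOn (continuousOn_const.mul ha)
  exact h1.mul (((((hp.add hq).add (hr.pow 2)).add (hs.pow 2)).add (hr.mul hs)).sub
    (ht.mul (hr.add hw)))

lemma Rd_cont {U : Set E} (hU : IsOpen U) {α : Fin 3 → E → ℝ} (hα : ∀ i, ContDiffOn ℝ ∞ (α i) U) :
    ContinuousOn (Rd α) U := by
  have c0 : ∀ i, ContinuousOn (α i) U := fun i => (hα i).continuousOn
  have c1 : ∀ k i, ContinuousOn (pd k (α i)) U := fun k i => (pd_smooth hU (hα i) k).continuousOn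
  have c2 : ∀ k i, ContinuousOn (pd k (pd k (α i))) U := fun k i =>
    (pd_smooth hU (pd_smooth hU (hα i) k) k).continuousOn
  unfold Rd
  refine continuousOn_const.mul (ContinuousOn.add (ContinuousOn.add ?_ ?_) ?_)
  · exact term_cont (c0 0) (c2 0 1) (c2 0 2) (c1 0 1) (c1 0 2) (c1 0 0) (c1 0 2)
  · exact term_cont (c0 1) (c2 1 0) (c2 1 2) (c1 1 0) (c1 1 2) (c1 1 1) (c1 1 2)
  · exact term_cont (c0 2) (c2 2 0) (c2 2 1) (c1 2 0) (c1 2 1) (c1 2 2) (c1 2 1)

lemma vol_gm (F : E → ℝ) (K t : ℝ) (x : E) : vol (gm F K t) x =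
    Real.exp (al F K t 0 x + al F K t 1 x + al F K t 2 x) :=
  vol_diag (al F K t) x

lemma vol_cont {U : Set E} {F : E → ℝ} {K t : ℝ} (hα : ∀ i, ContDiffOn ℝ ∞ (al F K t i) U) :
    ContinuousOn (vol (gm F K t)) U := by
  have : vol (gm F K t) = fun x => Real.exp (al F K t 0 x + al F K t 1 x + al F K t 2 x) := by
    funext x; exact vol_gm F K t x
  rw [this]
  exact Real.continuous_exp.comp_continuousOn
    (((hα 0).continuousOn.add (hα 1).continuousOn).add (hα 2).continuousOn)

lemma aa_zero {F : E → ℝ} {x : E} (hx : x ∉ tsupport F) (i : Fin 3) : aa F i x = 0 := by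
  have h : ∀ k, pd k (pd k F) x = 0 := fun k =>
    pd_zero_of_notMem k (fun h => hx (pd_tsupport k h))
  unfold aa
  fin_cases i <;> simp [h]

theorem rint (hSM : S_SM) : S_RINT := by
  intro _ hPOT hDEC hOUT F hF K t hK ht hKt
  have hsm := hSM hPOT F hF K t hK hKt
  have hU : IsOpen {x : E | 3 < s x} := open_s 3
  obtain ⟨⟨C, hC, -, hD1, -⟩, -⟩ := hDEC
  have hsub : MM ⊆ {x : E | 3 < s x} := by
    intro x hx
    simp only [MM, Set.mem_ofPred_eq] at hx ⊢
    linarith
  have hcont : ContinuousOn (fun x => Rd (al F K t) x * vol (gm F K t) x) {x : E | 3 < s x} :=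
    (Rd_cont hU hsm).mul (vol_cont hsm)
  have hclosed : IsClosed MM := by
    unfold MM
    exact isClosed_le continuous_const s_cont
  have hmeas : MeasurableSet MM := hclosed.measurableSet
  have hcomp : IsCompact (MM ∩ tsupport F) := by
    rw [Set.inter_comm]
    exact hF.2.1.inter_right hclosed
  have e : MM = (MM ∩ tsupport F) ∪ (MM \ tsupport F) := (Set.inter_union_sdiff MM (tsupport F)).symm
  rw [e]
  refine IntegrableOn.union ?_ ?_
  · exact (hcont.mono (Set.inter_subset_left.trans hsub)).integrableOn_compact hcomp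
  · have hmd : MeasurableSet (MM \ tsupport F) := hmeas.diff (isClosed_tsupport F).measurableSet
    have hint : Integrable (fun x : E => (1 + ‖x‖) ^ (-4 : ℝ)) volume := by
      refine integrable_one_add_norm ?_
      simp
      norm_num
    have hint2 : IntegrableOn (fun x : E => (16 * K * t ^ 2 * (3 * C ^ 2)) * (1 + ‖x‖) ^ (-4 : ℝ))
        (MM \ tsupport F) := (hint.const_mul _).integrableOn
    refine Integrable.mono' hint2 ?_ ?_
    · exact (hcont.mono (Set.sdiff_subset.trans hsub)).aestronglyMeasurable hmd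
    · rw [ae_restrict_iff' hmd]
      refine Eventually.of_forall fun x hx => ?_
      have hxM : x ∈ MM := hx.1
      have hs4 : 4 ≤ s x := hxM
      rw [hOUT hPOT F K t hK hKt x hs4 hx.2]
      have hu : |u x| < 1 := hPOT.2.2.2.2.2 x (by linarith)
      have hu2 : u x ^ 2 ≤ 1 := by
        rw [← sq_abs]
        have := abs_nonneg (u x)
        nlinarith
      have hph : 0 < ph K t x := by
        unfold ph
        have : 0 ≤ K * t ^ 2 := by positivity
        nlinarith
      have hph1 : ph K t x ≤ 1 := by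
        unfold ph
        have : 0 ≤ K * t ^ 2 * u x ^ 2 := by positivity
        linarith
      have hv : vol (gm F K t) x = ph K t x ^ 6 := by
        rw [vol_gm]
        unfold al
        rw [aa_zero hx.2, aa_zero hx.2, aa_zero hx.2]
        have : t * 0 + 2 * Real.log (ph K t x) + (t * 0 + 2 * Real.log (ph K t x)) +
            (t * 0 + 2 * Real.log (ph K t x)) = (6 : ℕ) * Real.log (ph K t x) := by
          push_cast; ring
        rw [this, Real.exp_nat_mul, Real.exp_log hph]
      rw [hv]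
      have hsum0 : 0 ≤ ∑ i, pd i u x ^ 2 := Finset.sum_nonneg fun i _ => sq_nonneg _
      have e1 : 16 * K * t ^ 2 * (∑ i, pd i u x ^ 2) / ph K t x ^ 5 * ph K t x ^ 6 =
          16 * K * t ^ 2 * (∑ i, pd i u x ^ 2) * ph K t x := by
        field_simp
      rw [e1, Real.norm_eq_abs, abs_of_nonneg (by positivity)]
      have hn : 0 < 1 + ‖x‖ := by positivity
      have hb : ∑ i, pd i u x ^ 2 ≤ 3 * C ^ 2 * (1 + ‖x‖) ^ (-4 : ℝ) := by
        have e2 : (1 + ‖x‖) ^ (-4 : ℝ) = ((1 + ‖x‖) ^ 2)⁻¹ ^ 2 := by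
          rw [Real.rpow_neg hn.le, show (4 : ℝ) = ((4 : ℕ) : ℝ) by norm_num, Real.rpow_natCast,
            inv_pow, ← pow_mul]
        rw [e2]
        have h3 : ∀ i, pd i u x ^ 2 ≤ C ^ 2 * ((1 + ‖x‖) ^ 2)⁻¹ ^ 2 := by
          intro i
          have h4 := hD1 x hxM i
          rw [div_eq_mul_inv] at h4
          rw [← sq_abs, ← mul_pow]
          have := abs_nonneg (pd i u x)
          gcongr
        calc ∑ i, pd i u x ^ 2 ≤ ∑ i : Fin 3, C ^ 2 * ((1 + ‖x‖) ^ 2)⁻¹ ^ 2 :=
              Finset.sum_le_sum fun i _ => h3 i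
          _ = _ := by
              rw [Finset.sum_const, Finset.card_univ, Fintype.card_fin, nsmul_eq_mul]
              push_cast; ring
      calc 16 * K * t ^ 2 * (∑ i, pd i u x ^ 2) * ph K t x
          ≤ 16 * K * t ^ 2 * (3 * C ^ 2 * (1 + ‖x‖) ^ (-4 : ℝ)) * 1 := by gcongr
        _ = _ := by ring

end

end Pool.Agent.K1H68.MC
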