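import Pool.Agent.K1H62.MC.Plan

set_option autoImplicit false

/-! The scalar curvature of a diagonal metric. -/

namespace Pool.Agent.K1H68.MC

open MeasureTheory Filter Topology
open scoped ENNReal ContDiff
open Pool.Agent.K1H62.MC

noncomputable section

/-- the Christoffel symbols of `diag (exp (2 α_i))` -/
def G (α : Fin 3 → E → ℝ) (k i j : Fin 3) (y : E) : ℝ :=
  if i = j then (if k = i then pd i (α i) y else
    -(Real.exp (2 * α i y) * Real.exp (-2 * α k y) * pd k (α i) y))
  else if k = j then pd i (α j) y else if k = i then pd j (α i) y else 0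

lemma pd_met (α : Fin 3 → E → ℝ) {U : Set E} (hU : IsOpen U) (hα : ∀ i, ContDiffOn ℝ ∞ (α i) U)
    {y : E} (hy : y ∈ U) (m i j : Fin 3) :
    pd m (fun z => (Matrix.diagonal fun i => Real.exp (2 * α i z) : Matrix (Fin 3) (Fin 3) ℝ) i j) y =
      if i = j then 2 * Real.exp (2 * α i y) * pd m (α i) y else 0 := by
  have hd : DifferentiableAt ℝ (α i) y := diff_of hU (hα i) hy
  split_ifs with h
  · subst h
    have e : (fun z => (Matrix.diagonal fun i => Real.exp (2 * α i z) : Matrix (Fin 3) (Fin 3) ℝ) i i) =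
        fun z => Real.exp (2 * α i z) := by
      funext z; rw [Matrix.diagonal_apply_eq]
    rw [e, pd_exp m (hd.const_mul 2), pd_const_mul m 2 hd]
    ring
  · have e : (fun z => (Matrix.diagonal fun i => Real.exp (2 * α i z) : Matrix (Fin 3) (Fin 3) ℝ) i j) =
        fun z => (0 : ℝ) := by
      funext z; rw [Matrix.diagonal_apply_ne _ h]
    rw [e, pd_const]

lemma chr_eq (α : Fin 3 → E → ℝ) {U : Set E} (hU : IsOpen U) (hα : ∀ i, ContDiffOn ℝ ∞ (α i) U)
    (k i j : Fin 3) :
    Set.EqOn (Chr (fun y => Matrix.diagonal fun i => Real.exp (2 * α i y)) k i j) (G α k i j) U := by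
  intro y hy
  unfold Chr
  rw [inv_diag fun i => α i y]
  rw [Finset.sum_eq_single k]
  · rw [Matrix.diagonal_apply_eq, pd_met α hU hα hy, pd_met α hU hα hy, pd_met α hU hα hy]
    have hexp : ∀ i, Real.exp (-2 * α i y) * Real.exp (2 * α i y) = 1 := by
      intro i
      rw [← Real.exp_add]
      simp
    unfold G
    have h1 := hexp k
    by_cases hij : i = j
    · subst hij
      by_cases hki : k = i
      · subst hki
        simp only [if_true]
        linear_combination (pd k (α k) y) * h1
      · have hik : ¬ i = k := fun h => hki h.symm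
        simp only [if_true, if_neg hki, if_neg hik]
        ring
    · by_cases hkj : k = j
      · subst hkj
        simp only [if_true, if_neg hij]
        linear_combination (pd i (α k) y) * h1
      · have hjk : ¬ j = k := fun h => hkj h.symm
        by_cases hki : k = i
        · subst hki
          simp only [if_true, if_neg hij, if_neg hjk]
          linear_combination (pd j (α k) y) * h1
        · have hik : ¬ i = k := fun h => hki h.symm
          simp only [if_neg hij, if_neg hkj, if_neg hjk, if_neg hki, if_neg hik]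
          ring
  · intro l _ hl
    rw [Matrix.diagonal_apply_ne _ hl.symm]; ring
  · intro h; exact absurd (Finset.mem_univ k) h

lemma G_kkl (α : Fin 3 → E → ℝ) (k l : Fin 3) : G α k k l = pd l (α k) := by
  funext y
  unfold G
  by_cases h : k = l
  · subst h; simp
  · simp [h]

lemma G_kik (α : Fin 3 → E → ℝ) (k i : Fin 3) : G α k i k = pd i (α k) := by
  funext y
  unfold G
  by_cases h : i = k
  · subst h; simp
  · simp [h]

lemma pdG (α : Fin 3 → E → ℝ) {U : Set E} (hU : IsOpen U) (hα : ∀ i, ContDiffOn ℝ ∞ (α i) U)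
    {x : E} (hx : x ∈ U) {k i : Fin 3} (hki : k ≠ i) :
    pd k (G α k i i) x = -(Real.exp (2 * α i x) * Real.exp (-2 * α k x) *
      ((2 * pd k (α i) x - 2 * pd k (α k) x) * pd k (α i) x + pd k (pd k (α i)) x)) := by
  have e : G α k i i = fun y => -(Real.exp (2 * α i y) * Real.exp (-2 * α k y) * pd k (α i) y) := by
    funext y
    unfold G
    simp [hki]
  have hdi : DifferentiableAt ℝ (α i) x := diff_of hU (hα i) hx
  have hdk : DifferentiableAt ℝ (α k) x := diff_of hU (hα k) hx
  have hdp : DifferentiableAt ℝ (pd k (α i)) x := diff_of hU (pd_smooth hU (hα i) k) hx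
  have h1 : DifferentiableAt ℝ (fun y => Real.exp (2 * α i y)) x := (hdi.const_mul 2).exp
  have h2 : DifferentiableAt ℝ (fun y => Real.exp (-2 * α k y)) x := (hdk.const_mul (-2)).exp
  have h12 : DifferentiableAt ℝ (fun y => Real.exp (2 * α i y) * Real.exp (-2 * α k y)) x :=
    h1.mul h2
  rw [e, pd_neg, pd_mul k h12 hdp, pd_mul k h1 h2, pd_exp k (hdi.const_mul 2),
    pd_exp k (hdk.const_mul (-2)), pd_const_mul k 2 hdi, pd_const_mul k (-2) hdk]
  ring

theorem scal : S_SCAL := by
  intro α U hU hα x hx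
  have hexp : ∀ i, Real.exp (-2 * α i x) * Real.exp (2 * α i x) = 1 := by
    intro i
    rw [← Real.exp_add]
    simp
  have h1 : Rsc (fun y => Matrix.diagonal fun i => Real.exp (2 * α i y)) x =
      ∑ i, Real.exp (-2 * α i x) * ∑ k, (pd k (G α k i i) x - pd i (pd i (α k)) x +
        ∑ l, (pd l (α k) x * G α l i i x - G α k i l x * G α l i k x)) := by
    unfold Rsc
    rw [inv_diag fun i => α i x]
    refine Finset.sum_congr rfl fun i _ => ?_
    rw [Finset.sum_eq_single i]
    · rw [Matrix.diagonal_apply_eq]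
      congr 1
      refine Finset.sum_congr rfl fun k _ => ?_
      rw [pd_congr_set hU (chr_eq α hU hα k i i) hx, pd_congr_set hU (chr_eq α hU hα k i k) hx,
        G_kik]
      congr 1
      refine Finset.sum_congr rfl fun l _ => ?_
      rw [chr_eq α hU hα k k l hx, chr_eq α hU hα l i i hx, chr_eq α hU hα k i l hx,
        chr_eq α hU hα l i k hx, G_kkl]
    · intro j _ hj
      rw [Matrix.diagonal_apply_ne _ hj.symm]; ring
    · intro h; exact absurd (Finset.mem_univ i) h
  rw [h1]
  have hG : ∀ i, pd i (G α i i i) x = pd i (pd i (α i)) x := by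
    intro i
    rw [G_kkl]
  have p01 := pdG α hU hα hx (k := 0) (i := 1) (by decide)
  have p02 := pdG α hU hα hx (k := 0) (i := 2) (by decide)
  have p10 := pdG α hU hα hx (k := 1) (i := 0) (by decide)
  have p12 := pdG α hU hα hx (k := 1) (i := 2) (by decide)
  have p20 := pdG α hU hα hx (k := 2) (i := 0) (by decide)
  have p21 := pdG α hU hα hx (k := 2) (i := 1) (by decide)
  simp only [Fin.sum_univ_three, hG, p01, p02, p10, p12, p20, p21]
  unfold Rd
  have n01 : ¬ (0 : Fin 3) = 1 := by decide
  have n02 : ¬ (0 : Fin 3) = 2 := by decide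
  have n10 : ¬ (1 : Fin 3) = 0 := by decide
  have n12 : ¬ (1 : Fin 3) = 2 := by decide
  have n20 : ¬ (2 : Fin 3) = 0 := by decide
  have n21 : ¬ (2 : Fin 3) = 1 := by decide
  simp only [G, n01, n02, n10, n12, n20, n21, if_true, if_false]
  have a0 := hexp 0
  have a1 := hexp 1
  have a2 := hexp 2
  have q0 : Real.exp (-2 * α 0 x) ≠ 0 := (Real.exp_pos _).ne'
  have q1 : Real.exp (-2 * α 1 x) ≠ 0 := (Real.exp_pos _).ne'
  have q2 : Real.exp (-2 * α 2 x) ≠ 0 := (Real.exp_pos _).ne'
  have b0 : Real.exp (2 * α 0 x) = (Real.exp (-2 * α 0 x))⁻¹ :=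
    eq_inv_of_mul_eq_one_right a0
  have b1 : Real.exp (2 * α 1 x) = (Real.exp (-2 * α 1 x))⁻¹ :=
    eq_inv_of_mul_eq_one_right a1
  have b2 : Real.exp (2 * α 2 x) = (Real.exp (-2 * α 2 x))⁻¹ :=
    eq_inv_of_mul_eq_one_right a2
  rw [b0, b1, b2]
  clear p01 p02 p10 p12 p20 p21 h1 hG hexp a0 a1 a2 b0 b1 b2
  generalize Real.exp (-2 * α 0 x) = A0 at *
  generalize Real.exp (-2 * α 1 x) = A1 at *
  generalize Real.exp (-2 * α 2 x) = A2 at *
  field_simp
  ring

end

end Pool.Agent.K1H68.MC
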